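import Pool.Agent.L7h58.SK.Stm

/-!
# Artin induction for `K₁(R[G])`, `R` any commutative ring

For integral representations `ρ` of a finite group `G` write `[ρ]` for the class in `K₁(R[G])` of a
fixed invertible matrix over `R[G]` twisted with `ρ`.  Commensurable lattices satisfy
`[U] + [U'] = [U ∩ U'] + [U + U']` (`mv`), and from this we get for isogenous representations
`ρ ~ σ`, `ρ' ~ σ'`: `[ρ ⊗ ρ'] + [σ ⊗ σ'] = [σ ⊗ ρ'] + [ρ ⊗ σ']` (Swan: the kernel of
`G₀(ℤG) → G₀(ℚG)` has square zero).  Applied to the permutation representations of Artin's theorem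
this gives the result.
-/

namespace Pool.Agent.L7h60.SK

open Matrix H970SH H842 Pool.Agent.Y69 Pool.Agent.Y69.TP

noncomputable section

variable {R : Type} [CommRing R] {G : Type} [Group G] {N N' K L : Type} [Fintype N] [DecidableEq N]
  [Fintype N'] [DecidableEq N'] [Fintype K] [DecidableEq K] [Fintype L] [DecidableEq L]
  {ι : Type} [Fintype ι] [DecidableEq ι]

theorem rth_entry (ρ : G →* Matrix N N R) (σ : G →* Matrix N' N' R) (x y : N) (x' y' : N')
    (h : ∀ g, ρ g x y = σ g x' y') (a : MonoidAlgebra R G) : rth ρ a x y = rth σ a x' y' := by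
  induction a using MonoidAlgebra.induction_linear with
  | zero => simp
  | add a b ha hb => rw [map_add, Matrix.add_apply, ha, hb, map_add, Matrix.add_apply]
  | single g r => rw [rth_single, rth_single, h]

/-- block triangular representations on a sum -/
theorem zz_tri (ρ : G →* Matrix (K ⊕ L) (K ⊕ L) R) (ρa : G →* Matrix K K R)
    (ρb : G →* Matrix L L R) (h11 : ∀ g x y, ρ g (Sum.inl x) (Sum.inl y) = ρa g x y)
    (h22 : ∀ g x y, ρ g (Sum.inr x) (Sum.inr y) = ρb g x y)
    (h21 : ∀ g x y, ρ g (Sum.inr x) (Sum.inl y) = 0)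
    (w : (Matrix ι ι (MonoidAlgebra R G))ˣ) : zz ρ w = zz ρa w + zz ρb w := by
  unfold zz
  rw [← cl_reindex (Equiv.prodSumDistrib ι K L) (blow (rth ρ) w)]
  apply cl_upper _ _ (Matrix.of fun (p : ι × K) (q : ι × L) =>
    rth ρ ((w : Matrix ι ι (MonoidAlgebra R G)) p.1 q.1) (Sum.inl p.2) (Sum.inr q.2))
  rw [reindexUnit_val]
  ext (⟨i, x⟩ | ⟨i, x⟩) (⟨j, y⟩ | ⟨j, y⟩) : 1
  · rw [Matrix.reindex_apply, Matrix.submatrix_apply, Equiv.prodSumDistrib_symm_apply_left,
      Equiv.prodSumDistrib_symm_apply_left, Matrix.fromBlocks_apply₁₁, blow_apply, blow_apply]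
    exact rth_entry ρ ρa _ _ _ _ (fun g => h11 g x y) _
  · rw [Matrix.reindex_apply, Matrix.submatrix_apply, Equiv.prodSumDistrib_symm_apply_left,
      Equiv.prodSumDistrib_symm_apply_right, Matrix.fromBlocks_apply₁₂, blow_apply]
    rfl
  · rw [Matrix.reindex_apply, Matrix.submatrix_apply, Equiv.prodSumDistrib_symm_apply_left,
      Equiv.prodSumDistrib_symm_apply_right, Matrix.fromBlocks_apply₂₁, blow_apply]
    exact rth_zero ρ _ _ (fun g => h21 g x y) _
  · rw [Matrix.reindex_apply, Matrix.submatrix_apply, Equiv.prodSumDistrib_symm_apply_right,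
      Equiv.prodSumDistrib_symm_apply_right, Matrix.fromBlocks_apply₂₂, blow_apply, blow_apply]
    exact rth_entry ρ ρb _ _ _ _ (fun g => h22 g x y) _

/-- `σ` is the representation on the sublattice spanned by the `q x • e x` -/
def St (τ : G →* Matrix K K ℤ) (q : K → ℤ) (σ : G →* Matrix K K ℤ) : Prop :=
  ∀ g x y, τ g x y * q y = q x * σ g x y

/-- direct sum of representations -/
def dsum (σ : G →* Matrix K K ℤ) (σ' : G →* Matrix L L ℤ) : G →* Matrix (K ⊕ L) (K ⊕ L) ℤ where
  toFun g := fromBlocks (σ g) 0 0 (σ' g)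
  map_one' := by rw [map_one, map_one, fromBlocks_one]
  map_mul' g h := by rw [map_mul, map_mul, fromBlocks_multiply]; simp

/-- commensurable lattices: `[U] + [U'] = [U ∩ U'] + [U + U']` -/
theorem mv (τ σa σb σd σl : G →* Matrix K K ℤ) (a b d l : K → ℤ) (ha : St τ a σa) (hb : St τ b σb)
    (hd : St τ d σd) (hl : St τ l σl) (hl0 : ∀ x, l x ≠ 0)
    (h : ∀ x, ∃ a' b' u v : ℤ, a x = a' * d x ∧ b x = b' * d x ∧ l x = a' * b' * d x ∧
      u * a' + v * b' = 1) (w : (Matrix ι ι (MonoidAlgebra R G))ˣ) :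
    zz (rd R σa) w + zz (rd R σb) w = zz (rd R σd) w + zz (rd R σl) w := by
  choose a' b' u v hA hB hL hB1 using h
  have hd0 : ∀ x, d x ≠ 0 := fun x h0 => hl0 x (by rw [hL, h0, mul_zero])
  let S : Matrix (K ⊕ K) (K ⊕ K) ℤ := fromBlocks (diagonal b') (diagonal u) (diagonal a')
    (diagonal fun x => - v x)
  let S' : Matrix (K ⊕ K) (K ⊕ K) ℤ := fromBlocks (diagonal v) (diagonal u) (diagonal a')
    (diagonal fun x => - b' x)
  have hS : S * S' = 1 := by
    simp only [S, S', fromBlocks_multiply, diagonal_mul_diagonal]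
    rw [← fromBlocks_one]
    congr 1
    · rw [diagonal_add, ← diagonal_one]
      congr 1; ext x; rw [← hB1 x]; ring
    · rw [diagonal_add, ← diagonal_zero]
      congr 1; ext x; ring
    · rw [diagonal_add, ← diagonal_zero]
      congr 1; ext x; ring
    · rw [diagonal_add, ← diagonal_one]
      congr 1; ext x; rw [← hB1 x]; ring
  have hS' : S' * S = 1 := by
    simp only [S, S', fromBlocks_multiply, diagonal_mul_diagonal]
    rw [← fromBlocks_one]
    congr 1
    · rw [diagonal_add, ← diagonal_one]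
      congr 1; ext x; rw [← hB1 x]; ring
    · rw [diagonal_add, ← diagonal_zero]
      congr 1; ext x; ring
    · rw [diagonal_add, ← diagonal_zero]
      congr 1; ext x; ring
    · rw [diagonal_add, ← diagonal_one]
      congr 1; ext x; rw [← hB1 x]; ring
  have e1 : zz (rd R (dsum σa σb)) w = zz (rd R σa) w + zz (rd R σb) w := by
    apply zz_tri
    · intro g x y; rfl
    · intro g x y; rfl
    · intro g x y
      rw [rd_apply]
      exact Int.cast_zero
  have e2 : zz (rd R (dsum σa σb)) w = zz (rd R (conjR (dsum σa σb) S S' hS hS')) w := by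
    apply zz_sim_int R _ _ S S' hS hS'
    intro g
    show _ = S * (S' * dsum σa σb g * S)
    rw [← Matrix.mul_assoc, ← Matrix.mul_assoc, hS, Matrix.one_mul]
  have e3 : zz (rd R (conjR (dsum σa σb) S S' hS hS')) w = zz (rd R σl) w + zz (rd R σd) w := by
    have hval : ∀ g, conjR (dsum σa σb) S S' hS hS' g = fromBlocks
        (diagonal v * σa g * diagonal b' + diagonal u * σb g * diagonal a')
        (diagonal v * σa g * diagonal u + diagonal u * σb g * diagonal (fun x => - v x))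
        (diagonal a' * σa g * diagonal b' + diagonal (fun x => - b' x) * σb g * diagonal a')
        (diagonal a' * σa g * diagonal u +
          diagonal (fun x => - b' x) * σb g * diagonal (fun x => - v x)) := by
      intro g
      show S' * fromBlocks (σa g) 0 0 (σb g) * S = _
      simp only [S, S', fromBlocks_multiply, Matrix.mul_zero, zero_add, add_zero]
    apply zz_tri
    · intro g x y
      rw [rd_apply, rd_apply, hval, fromBlocks_apply₁₁]
      congr 1
      rw [Matrix.add_apply, Matrix.mul_diagonal, Matrix.mul_diagonal, Matrix.diagonal_mul,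
        Matrix.diagonal_mul]
      apply mul_left_cancel₀ (hl0 x)
      rw [← hl g x y]
      have h1 := ha g x y
      have h2 := hb g x y
      rw [hA, hA] at h1
      rw [hB, hB] at h2
      rw [hL, hL]
      linear_combination (-(b' x * v x * b' y)) * h1 - (a' x * u x * a' y) * h2 +
        (τ g x y * a' y * b' y * d y) * hB1 x
    · intro g x y
      rw [rd_apply, rd_apply, hval, fromBlocks_apply₂₂]
      congr 1
      rw [Matrix.add_apply, Matrix.mul_diagonal, Matrix.mul_diagonal, Matrix.diagonal_mul,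
        Matrix.diagonal_mul]
      apply mul_left_cancel₀ (hd0 x)
      rw [← hd g x y]
      have h1 := ha g x y
      have h2 := hb g x y
      rw [hA, hA] at h1
      rw [hB, hB] at h2
      linear_combination (-(u y)) * h1 - (v y) * h2 + (τ g x y * d y) * hB1 y
    · intro g x y
      rw [rd_apply, hval, fromBlocks_apply₂₁]
      have : (diagonal a' * σa g * diagonal b' +
          diagonal (fun x => - b' x) * σb g * diagonal a') x y = 0 := by
        rw [Matrix.add_apply, Matrix.mul_diagonal, Matrix.mul_diagonal, Matrix.diagonal_mul,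
          Matrix.diagonal_mul]
        apply mul_left_cancel₀ (hd0 x)
        have h1 := ha g x y
        have h2 := hb g x y
        rw [hA, hA] at h1
        rw [hB, hB] at h2
        linear_combination (-(b' y)) * h1 + (a' y) * h2
      rw [this]
      exact Int.cast_zero
  rw [← e1, e2, e3, add_comm]

/-- tensor product of representations -/
def tn (ρ : G →* Matrix N N ℤ) (ρ' : G →* Matrix N' N' ℤ) :
    G →* Matrix (N × N') (N × N') ℤ where
  toFun g := Matrix.of fun p q => ρ g p.1 q.1 * ρ' g p.2 q.2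
  map_one' := by
    ext ⟨x, x'⟩ ⟨y, y'⟩
    rw [map_one, map_one, Matrix.of_apply]
    simp only [Matrix.one_apply, Prod.mk.injEq]
    split_ifs <;> simp_all
  map_mul' g h := by
    ext ⟨x, x'⟩ ⟨y, y'⟩
    rw [map_mul, map_mul, Matrix.of_apply, Matrix.mul_apply, Matrix.mul_apply, Matrix.mul_apply,
      Fintype.sum_prod_type, Finset.sum_mul_sum]
    refine Finset.sum_congr rfl fun z _ => Finset.sum_congr rfl fun z' _ => ?_
    rw [Matrix.of_apply, Matrix.of_apply]
    ring

theorem tn_apply (ρ : G →* Matrix N N ℤ) (ρ' : G →* Matrix N' N' ℤ) (g : G) (x y : N)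
    (x' y' : N') : tn ρ ρ' g (x, x') (y, y') = ρ g x y * ρ' g x' y' := rfl

theorem St.tn {ρ σ : G →* Matrix N N ℤ} {q : N → ℤ} {ρ' σ' : G →* Matrix N' N' ℤ} {q' : N' → ℤ}
    (h : St ρ q σ) (h' : St ρ' q' σ') :
    St (tn ρ ρ') (fun p => q p.1 * q' p.2) (SK.tn σ σ') := by
  rintro g ⟨x, x'⟩ ⟨y, y'⟩
  rw [tn_apply, tn_apply]
  have h1 := h g x y
  have h2 := h' g x' y'
  show ρ g x y * ρ' g x' y' * (q y * q' y') = q x * q' x' * (σ g x y * σ' g x' y')
  linear_combination (ρ' g x' y' * q' y') * h1 + (q x * σ g x y) * h2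

theorem St.refl (ρ : G →* Matrix N N ℤ) : St ρ (fun _ => 1) ρ := by
  intro g x y
  rw [mul_one, one_mul]

theorem St.tnl {ρ σ : G →* Matrix N N ℤ} {q : N → ℤ} (h : St ρ q σ) (ρ' : G →* Matrix N' N' ℤ) :
    St (SK.tn ρ ρ') (fun p => q p.1) (SK.tn σ ρ') := by
  have h1 := h.tn (St.refl ρ')
  simpa only [mul_one] using h1

theorem St.tnr {ρ σ : G →* Matrix N N ℤ} {q : N → ℤ} (h : St ρ q σ) (ρ' : G →* Matrix N' N' ℤ) :
    St (SK.tn ρ' ρ) (fun p => q p.2) (SK.tn ρ' σ) := by
  have h1 := (St.refl ρ').tn h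
  simpa only [one_mul] using h1

/-- units -/
theorem zz_units (ρ σ : G →* Matrix K K ℤ) (q : K → ℤ) (hq : ∀ x, IsUnit (q x)) (h : St ρ q σ)
    (w : (Matrix ι ι (MonoidAlgebra R G))ˣ) : zz (rd R ρ) w = zz (rd R σ) w := by
  choose u hu using hq
  apply zz_sim_int R _ _ (diagonal fun x => ((u x : ℤˣ) : ℤ))
    (diagonal fun x => (((u x)⁻¹ : ℤˣ) : ℤ))
  · rw [Matrix.diagonal_mul_diagonal]
    simp
  · rw [Matrix.diagonal_mul_diagonal]
    simp
  · intro g
    ext x y
    rw [Matrix.mul_diagonal, Matrix.diagonal_mul, hu, hu]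
    exact h g x y

/-- the relation for two elementary steps -/
theorem base (p q : ℤ) (hp : Prime p) (hq : Prime q) (hp0 : 0 < p) (hq0 : 0 < q)
    (ρ σ : G →* Matrix N N ℤ) (ρ' σ' : G →* Matrix N' N' ℤ) (a : N → ℤ) (b : N' → ℤ)
    (ha : ∀ x, a x = 1 ∨ a x = p) (hb : ∀ x, b x = 1 ∨ b x = q) (h : St ρ a σ) (h' : St ρ' b σ')
    (w : (Matrix ι ι (MonoidAlgebra R G))ˣ) :
    zz (rd R (tn ρ ρ')) w + zz (rd R (tn σ σ')) w =
      zz (rd R (tn σ ρ')) w + zz (rd R (tn ρ σ')) w := by
  have s1 := h.tnl ρ'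
  have s2 := h'.tnr ρ
  have s3 := h.tn h'
  have s0 := St.refl (tn ρ ρ')
  have ha0 : ∀ x, a x ≠ 0 := by
    intro x
    rcases ha x with h1 | h1 <;> rw [h1]
    · exact one_ne_zero
    · exact hp.ne_zero
  have hb0 : ∀ x, b x ≠ 0 := by
    intro x
    rcases hb x with h1 | h1 <;> rw [h1]
    · exact one_ne_zero
    · exact hq.ne_zero
  by_cases hpq : p = q
  · subst hpq
    -- gcd and lcm
    let d : N × N' → ℤ := fun x => if a x.1 = p ∧ b x.2 = p then p else 1
    let l : N × N' → ℤ := fun x => if a x.1 = p ∨ b x.2 = p then p else 1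
    have hp1 : p ≠ 1 := fun h1 => hp.not_isUnit (h1 ▸ isUnit_one)
    have hd0 : ∀ x, d x ≠ 0 := by
      intro x
      simp only [d]
      split_ifs
      · exact hp.ne_zero
      · exact one_ne_zero
    have hl0 : ∀ x, l x ≠ 0 := by
      intro x
      simp only [l]
      split_ifs
      · exact hp.ne_zero
      · exact one_ne_zero
    have da : ∀ x y, a x = p → a y = 1 → ∀ g, p ∣ ρ g x y := by
      intro x y hx hy g
      have h1 := h g x y
      rw [hx, hy, mul_one] at h1
      exact ⟨_, h1⟩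
    have db : ∀ x y, b x = p → b y = 1 → ∀ g, p ∣ ρ' g x y := by
      intro x y hx hy g
      have h1 := h' g x y
      rw [hx, hy, mul_one] at h1
      exact ⟨_, h1⟩
    have hdd : ∀ g x y, d x ∣ tn ρ ρ' g x y * d y := by
      rintro g ⟨x, x'⟩ ⟨y, y'⟩
      by_cases hx : a x = p ∧ b x' = p
      · have e1 : d (x, x') = p := if_pos hx
        rw [e1]
        by_cases hy : a y = p ∧ b y' = p
        · have e2 : d (y, y') = p := if_pos hy
          rw [e2]
          exact dvd_mul_left _ _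
        · rcases ha y with h1 | h1
          · exact Dvd.dvd.mul_right (Dvd.dvd.mul_right (da x y hx.1 h1 g) _) _
          · rcases hb y' with h2 | h2
            · exact Dvd.dvd.mul_right (Dvd.dvd.mul_left (db x' y' hx.2 h2 g) _) _
            · exact absurd ⟨h1, h2⟩ hy
      · have e1 : d (x, x') = 1 := if_neg hx
        rw [e1]
        exact one_dvd _
    have hll : ∀ g x y, l x ∣ tn ρ ρ' g x y * l y := by
      rintro g ⟨x, x'⟩ ⟨y, y'⟩
      by_cases hx : a x = p ∨ b x' = p
      · have e1 : l (x, x') = p := if_pos hx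
        rw [e1]
        by_cases hy : a y = p ∨ b y' = p
        · have e2 : l (y, y') = p := if_pos hy
          rw [e2]
          exact dvd_mul_left _ _
        · have hy1 : a y = 1 := (ha y).resolve_right fun h1 => hy (Or.inl h1)
          have hy2 : b y' = 1 := (hb y').resolve_right fun h1 => hy (Or.inr h1)
          rcases hx with hx | hx
          · exact Dvd.dvd.mul_right (Dvd.dvd.mul_right (da x y hx hy1 g) _) _
          · exact Dvd.dvd.mul_right (Dvd.dvd.mul_left (db x' y' hx hy2 g) _) _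
      · have e1 : l (x, x') = 1 := if_neg hx
        rw [e1]
        exact one_dvd _
    obtain ⟨μ, hμ⟩ := exists_conj (tn ρ ρ') d hd0 hdd
    obtain ⟨ν, hν⟩ := exists_conj (tn ρ ρ') l hl0 hll
    have m1 := mv (R := R) (tn ρ ρ') (tn σ ρ') (tn ρ σ') μ ν (fun x => a x.1) (fun x => b x.2) d l
      s1 s2 hμ hν hl0 (by
        rintro ⟨x, x'⟩
        simp only [d, l]
        rcases ha x with h1 | h1 <;> rcases hb x' with h2 | h2 <;> rw [h1, h2]
        · exact ⟨1, 1, 1, 0, by simp [hp1.symm]⟩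
        · exact ⟨1, p, 1, 0, by simp [hp1.symm]⟩
        · exact ⟨p, 1, 0, 1, by simp [hp1.symm]⟩
        · exact ⟨1, 1, 1, 0, by simp⟩) w
    have sp : St (tn ρ ρ') (fun _ => p) (tn ρ ρ') := by
      intro g x y
      ring
    have sd : St (tn ρ ρ') (fun x => p * d x) μ := by
      intro g x y
      have h1 := hμ g x y
      linear_combination p * h1
    have m2 := mv (R := R) (tn ρ ρ') (tn ρ ρ') (tn σ σ') ν μ (fun _ => p)
      (fun x => a x.1 * b x.2) l (fun x => p * d x) sp s3 hν sd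
      (fun x => mul_ne_zero hp.ne_zero (hd0 x)) (by
        rintro ⟨x, x'⟩
        simp only [d, l]
        rcases ha x with h1 | h1 <;> rcases hb x' with h2 | h2 <;> rw [h1, h2]
        · exact ⟨p, 1, 0, 1, by simp [hp1.symm]⟩
        · exact ⟨1, 1, 1, 0, by simp [hp1.symm]⟩
        · exact ⟨1, 1, 1, 0, by simp [hp1.symm]⟩
        · exact ⟨1, p, 1, 0, by simp⟩) w
    rw [m1, m2, add_comm]
  · have hco : IsCoprime p q := by
      rw [hp.coprime_iff_not_dvd]
      intro h1
      have h2 := (Prime.associated_of_dvd hp hq h1)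
      rcases Int.associated_iff.1 h2 with h3 | h3
      · exact hpq h3
      · omega
    have m1 := mv (R := R) (tn ρ ρ') (tn σ ρ') (tn ρ σ') (tn ρ ρ') (tn σ σ') (fun x => a x.1)
      (fun x => b x.2) (fun _ => 1) (fun x => a x.1 * b x.2) s1 s2 s0 s3
      (fun x => mul_ne_zero (ha0 _) (hb0 _)) (by
        rintro ⟨x, x'⟩
        have h3 : IsCoprime (a x) (b x') := by
          rcases ha x with h1 | h1 <;> rcases hb x' with h2 | h2 <;> rw [h1, h2]
          · exact isCoprime_one_left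
          · exact isCoprime_one_left
          · exact isCoprime_one_right
          · exact hco
        obtain ⟨u, v, huv⟩ := h3
        exact ⟨a x, b x', u, v, by ring, by ring, by ring, huv⟩) w
    rw [m1]

/-- induction over the elementary steps -/
theorem chain_ind (C : (G →* Matrix N N ℤ) → (G →* Matrix N N ℤ) → Prop)
    (hunit : ∀ ρ σ q, (∀ x, IsUnit (q x)) → St ρ q σ → C ρ σ)
    (hel : ∀ (p : ℤ), Prime p → 0 < p → ∀ ρ σ e, (∀ x, e x = 1 ∨ e x = p) → St ρ e σ → C ρ σ)
    (htr : ∀ ρ τ σ, C ρ τ → C τ σ → C ρ σ) :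
    ∀ (n : ℕ) (ρ σ : G →* Matrix N N ℤ) (q : N → ℤ), ∑ x, (q x).natAbs ≤ n → (∀ x, q x ≠ 0) →
      St ρ q σ → C ρ σ := by
  intro n
  induction n with
  | zero =>
    intro ρ σ q hn hq h
    apply hunit ρ σ q _ h
    intro x
    exfalso
    have h1 := Finset.sum_eq_zero_iff.1 (Nat.le_zero.1 hn) x (Finset.mem_univ _)
    exact hq x (Int.natAbs_eq_zero.1 h1)
  | succ n ih =>
    intro ρ σ q hn hq h
    by_cases hu : ∀ x, IsUnit (q x)
    · exact hunit ρ σ q hu h
    push Not at hu
    obtain ⟨x0, hx0⟩ := hu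
    have h1 : (q x0).natAbs ≠ 1 := fun h2 => hx0 (Int.isUnit_iff_natAbs_eq.2 h2)
    obtain ⟨p, hp, hpd⟩ := Nat.exists_prime_and_dvd h1
    have hpZ : Prime (p : ℤ) := Nat.prime_iff_prime_int.1 hp
    have hpx : (p : ℤ) ∣ q x0 := Int.natCast_dvd.2 hpd
    have hp0 : (0 : ℤ) < p := by exact_mod_cast hp.pos
    let e : N → ℤ := fun x => if (p : ℤ) ∣ q x then (p : ℤ) else 1
    have he : ∀ x, e x = 1 ∨ e x = p := by
      intro x
      simp only [e]
      split_ifs
      · exact Or.inr rfl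
      · exact Or.inl rfl
    have he0 : ∀ x, e x ≠ 0 := by
      intro x
      rcases he x with h2 | h2 <;> rw [h2]
      · exact one_ne_zero
      · exact hpZ.ne_zero
    have heq : ∀ x, e x ∣ q x := by
      intro x
      simp only [e]
      split_ifs with h2
      · exact h2
      · exact one_dvd _
    choose q' hq' using heq
    have hdv : ∀ g x y, e x ∣ ρ g x y * e y := by
      intro g x y
      by_cases hx : (p : ℤ) ∣ q x
      · have e1 : e x = p := if_pos hx
        rw [e1]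
        by_cases hy : (p : ℤ) ∣ q y
        · have e2 : e y = p := if_pos hy
          rw [e2]
          exact dvd_mul_left _ _
        · have h2 : (p : ℤ) ∣ ρ g x y * q y := by
            rw [h g x y]
            exact Dvd.dvd.mul_right hx _
          exact Dvd.dvd.mul_right ((hpZ.dvd_or_dvd h2).resolve_right hy) _
      · have e1 : e x = 1 := if_neg hx
        rw [e1]
        exact one_dvd _
    obtain ⟨τ, hτ⟩ := exists_conj ρ e he0 hdv
    apply htr ρ τ σ (hel p hpZ hp0 ρ τ e he hτ)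
    have hq'0 : ∀ x, q' x ≠ 0 := fun x h2 => hq x (by rw [hq', h2, mul_zero])
    apply ih τ σ q' _ hq'0
    · intro g x y
      apply mul_left_cancel₀ (he0 x)
      have h2 := h g x y
      rw [hq' x, hq' y] at h2
      have h3 := hτ g x y
      linear_combination h2 - (q' y) * h3
    · have h2 : ∑ x, (q' x).natAbs < ∑ x, (q x).natAbs := by
        apply Finset.sum_lt_sum
        · intro x _
          rw [hq' x, Int.natAbs_mul]
          exact Nat.le_mul_of_pos_left _ (Int.natAbs_pos.2 (he0 x))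
        · refine ⟨x0, Finset.mem_univ _, ?_⟩
          rw [hq' x0, Int.natAbs_mul]
          have e1 : e x0 = p := if_pos hpx
          rw [e1, Int.natAbs_natCast]
          exact lt_mul_of_one_lt_left (Int.natAbs_pos.2 (hq'0 x0)) hp.one_lt
      omega

/-- the relation for two diagonal isogenies -/
theorem square (ρ σ : G →* Matrix N N ℤ) (ρ' σ' : G →* Matrix N' N' ℤ) (a : N → ℤ) (b : N' → ℤ)
    (ha : ∀ x, a x ≠ 0) (hb : ∀ x, b x ≠ 0) (h : St ρ a σ) (h' : St ρ' b σ')
    (w : (Matrix ι ι (MonoidAlgebra R G))ˣ) :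
    zz (rd R (tn ρ ρ')) w + zz (rd R (tn σ σ')) w =
      zz (rd R (tn σ ρ')) w + zz (rd R (tn ρ σ')) w := by
  revert ρ' σ' b
  have key : ∀ (q : ℤ), Prime q → 0 < q → ∀ (ρ' σ' : G →* Matrix N' N' ℤ) (b : N' → ℤ),
      (∀ x, b x = 1 ∨ b x = q) → St ρ' b σ' →
      zz (rd R (tn ρ ρ')) w + zz (rd R (tn σ σ')) w =
        zz (rd R (tn σ ρ')) w + zz (rd R (tn ρ σ')) w := by
    intro q hq hq0 ρ' σ' b hb h'
    apply chain_ind (fun ρ σ => zz (rd R (tn ρ ρ')) w + zz (rd R (tn σ σ')) w =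
      zz (rd R (tn σ ρ')) w + zz (rd R (tn ρ σ')) w) _ _ _ _ ρ σ a le_rfl ha h
    · intro ρ σ u hu h1
      rw [zz_units (R := R) (tn ρ ρ') (tn σ ρ') _ (fun x => hu x.1) (h1.tnl ρ') w,
        zz_units (R := R) (tn ρ σ') (tn σ σ') _ (fun x => hu x.1) (h1.tnl σ') w]
    · intro p hp hp0 ρ σ e he h1
      exact base p q hp hq hp0 hq0 ρ σ ρ' σ' e b he hb h1 h' w
    · intro ρ τ σ h1 h2
      have h4 : zz (rd R (tn ρ ρ')) w + zz (rd R (tn σ σ')) w +
          (zz (rd R (tn τ σ')) w + zz (rd R (tn τ ρ')) w) =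
          zz (rd R (tn σ ρ')) w + zz (rd R (tn ρ σ')) w +
          (zz (rd R (tn τ σ')) w + zz (rd R (tn τ ρ')) w) := by
        calc _ = zz (rd R (tn ρ ρ')) w + zz (rd R (tn τ σ')) w +
            (zz (rd R (tn τ ρ')) w + zz (rd R (tn σ σ')) w) := by abel
          _ = _ := by rw [h1, h2]; abel
      exact add_right_cancel h4
  intro ρ' σ' b hb h'
  apply chain_ind (fun ρ' σ' => zz (rd R (tn ρ ρ')) w + zz (rd R (tn σ σ')) w =
    zz (rd R (tn σ ρ')) w + zz (rd R (tn ρ σ')) w) _ _ _ _ ρ' σ' b le_rfl hb h'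
  · intro ρ' σ' u hu h1
    rw [zz_units (R := R) (tn ρ ρ') (tn ρ σ') _ (fun x => hu x.2) (h1.tnr ρ) w,
      zz_units (R := R) (tn σ ρ') (tn σ σ') _ (fun x => hu x.2) (h1.tnr σ) w, add_comm]
  · intro p hp hp0 ρ' σ' e he h1
    exact key p hp hp0 ρ' σ' e he h1
  · intro ρ' τ σ' h1 h2
    have h4 : zz (rd R (tn ρ ρ')) w + zz (rd R (tn σ σ')) w +
        (zz (rd R (tn σ τ)) w + zz (rd R (tn ρ τ)) w) =
        zz (rd R (tn σ ρ')) w + zz (rd R (tn ρ σ')) w +
        (zz (rd R (tn σ τ)) w + zz (rd R (tn ρ τ)) w) := by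
      calc _ = zz (rd R (tn ρ ρ')) w + zz (rd R (tn σ τ)) w +
          (zz (rd R (tn ρ τ)) w + zz (rd R (tn σ σ')) w) := by abel
        _ = _ := by rw [h1, h2]; abel
    exact add_right_cancel h4

/-- tensor products of isomorphic representations -/
theorem zz_tn_conj (ρ : G →* Matrix N N ℤ) (σ : G →* Matrix N' N' ℤ) {M M' : Type} [Fintype M]
    [DecidableEq M] [Fintype M'] [DecidableEq M'] (ρ1 : G →* Matrix M M ℤ)
    (σ1 : G →* Matrix M' M' ℤ) (A : Matrix N M ℤ) (A' : Matrix M N ℤ) (C : Matrix N' M' ℤ)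
    (C' : Matrix M' N' ℤ) (hA : A * A' = 1) (hA' : A' * A = 1) (hC : C * C' = 1) (hC' : C' * C = 1)
    (h1 : ∀ g, ρ g * A = A * ρ1 g) (h2 : ∀ g, σ g * C = C * σ1 g)
    (w : (Matrix ι ι (MonoidAlgebra R G))ˣ) :
    zz (rd R (tn ρ σ)) w = zz (rd R (tn ρ1 σ1)) w := by
  apply zz_sim_int R (tn ρ σ) (tn ρ1 σ1) (kroneckerMap (· * ·) A C) (kroneckerMap (· * ·) A' C')
  · rw [← Matrix.mul_kronecker_mul, hA, hC, Matrix.one_kronecker_one]
  · rw [← Matrix.mul_kronecker_mul, hA', hC', Matrix.one_kronecker_one]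
  · intro g
    show kroneckerMap (· * ·) (ρ g) (σ g) * _ = _ * kroneckerMap (· * ·) (ρ1 g) (σ1 g)
    rw [← Matrix.mul_kronecker_mul, ← Matrix.mul_kronecker_mul, h1, h2]

/-- the relation for two isogenous representations -/
theorem square_iso (ρ : G →* Matrix N N ℤ) (σ : G →* Matrix N' N' ℤ) (P : Matrix N N' ℤ)
    (Q : Matrix N' N ℤ) (δ : ℤ) (hδ : δ ≠ 0) (h1 : P * Q = δ • (1 : Matrix N N ℤ))
    (h2 : Q * P = δ • (1 : Matrix N' N' ℤ)) (h3 : ∀ g, ρ g * P = P * σ g)
    (w : (Matrix ι ι (MonoidAlgebra R G))ˣ) :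
    zz (rd R (tn ρ ρ)) w + zz (rd R (tn σ σ)) w =
      zz (rd R (tn σ ρ)) w + zz (rd R (tn ρ σ)) w := by
  obtain ⟨A, A', C, C', a, hA, hA', hC, hC', ha, hP⟩ := smith P Q δ hδ h1 h2
  have e1 : ∀ g, ρ g * A = A * conjR ρ A A' hA hA' g := by
    intro g
    show ρ g * A = A * (A' * ρ g * A)
    rw [← Matrix.mul_assoc, ← Matrix.mul_assoc, hA, Matrix.one_mul]
  have e2 : ∀ g, σ g * C = C * conjR σ C C' hC hC' g := by
    intro g
    show σ g * C = C * (C' * σ g * C)
    rw [← Matrix.mul_assoc, ← Matrix.mul_assoc, hC, Matrix.one_mul]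
  have hst : St (conjR ρ A A' hA hA') a (conjR σ C C' hC hC') := by
    intro g x y
    have h4 : (A' * ρ g * A) * Matrix.diagonal a = Matrix.diagonal a * (C' * σ g * C) := by
      calc (A' * ρ g * A) * Matrix.diagonal a = A' * ρ g * (A * Matrix.diagonal a) := by
            simp only [Matrix.mul_assoc]
        _ = A' * (ρ g * P) * C := by rw [← hP]; simp only [Matrix.mul_assoc]
        _ = A' * P * (1 : Matrix N' N' ℤ) * σ g * C := by
            rw [h3]; simp only [Matrix.mul_assoc, Matrix.one_mul]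
        _ = A' * (P * C) * C' * σ g * C := by rw [← hC]; simp only [Matrix.mul_assoc]
        _ = (A' * A) * Matrix.diagonal a * (C' * σ g * C) := by
            rw [hP]; simp only [Matrix.mul_assoc]
        _ = _ := by rw [hA', Matrix.one_mul]
    have h5 := congrFun (congrFun h4 x) y
    rw [Matrix.mul_diagonal, Matrix.diagonal_mul] at h5
    exact h5
  rw [zz_tn_conj ρ ρ _ _ A A' A A' hA hA' hA hA' e1 e1 w,
    zz_tn_conj σ σ _ _ C C' C C' hC hC' hC hC' e2 e2 w,
    zz_tn_conj σ ρ _ _ C C' A A' hC hC' hA hA' e2 e1 w,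
    zz_tn_conj ρ σ _ _ A A' C C' hA hA' hC hC' e1 e2 w]
  exact square _ _ _ _ a a ha ha hst hst w

/-- the twist with a product of permutation representations -/
theorem zz_tn_pm (X Z : Type) [Fintype X] [DecidableEq X] [MulAction G X] [Fintype Z]
    [DecidableEq Z] [MulAction G Z] (w : (Matrix ι ι (MonoidAlgebra R G))ˣ) :
    zz (rd R (tn (pm G X) (pm G Z))) w = TK.ArtK.yy X (blow (TK.ArtK.th G Z) w) := by
  rw [TK.ArtK.yy_eq]
  unfold zz
  have hent : ∀ (a : MonoidAlgebra R G) (x x' : X) (z z' : Z),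
      rth (rd R (tn (pm G X) (pm G Z))) a (x, z) (x', z') =
        TK.ArtK.th G X (TK.ArtK.th G Z a z z') x x' := by
    intro a x x' z z'
    induction a using MonoidAlgebra.induction_linear with
    | zero => simp
    | add a b ha hb => rw [map_add, Matrix.add_apply, ha, hb, map_add, Matrix.add_apply, map_add,
        Matrix.add_apply]
    | single g r =>
      rw [rth_single, TK.ArtK.th_single, rd_apply, tn_apply]
      show MonoidAlgebra.single g (r * ((((if g • x' = x then (1 : ℤ) else 0) *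
        (if g • z' = z then (1 : ℤ) else 0) : ℤ)) : R)) = _
      by_cases hz : g • z' = z
      · rw [if_pos hz, if_pos hz, TK.ArtK.th_single, mul_one]
        by_cases hx : g • x' = x
        · rw [if_pos hx, if_pos hx, Int.cast_one, mul_one]
        · rw [if_neg hx, if_neg hx, Int.cast_zero, mul_zero, MonoidAlgebra.single_zero]
      · rw [if_neg hz, if_neg hz, mul_zero, Int.cast_zero, mul_zero, MonoidAlgebra.single_zero,
          map_zero, Matrix.zero_apply]
  let e : ι × (X × Z) ≃ (ι × Z) × X :=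
    (Equiv.prodCongr (Equiv.refl ι) (Equiv.prodComm X Z)).trans (Equiv.prodAssoc ι Z X).symm
  apply cl_congr e
  rintro ⟨i, x, z⟩ ⟨j, x', z'⟩
  rw [blow_apply, blow_apply, blow_apply]
  exact hent _ _ _ _ _

/-- the twist with a permutation representation which is a sum of cosets -/
theorem yy_list [Finite G] {n : ℕ} (B : Fin n → Subgroup G)
    (w : (Matrix ι ι (MonoidAlgebra R G))ˣ) (s : ℕ) (l₁ : List (Subgroup G))
    (hl₁ : ∀ C ∈ l₁, IsCyclic C) (hB : List.ofFn B = List.replicate s ⊤ ++ l₁) :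
    ∃ c ∈ TK.ArtK.cyc R G, TK.ArtK.yy (XX B) w = s • cl w + c := by
  refine ⟨(l₁.map fun C => TK.ArtK.yy (G ⧸ C) w).sum, TK.ArtK.list_mem_cyc w l₁ hl₁, ?_⟩
  have e2 : TK.ArtK.yy (G ⧸ (⊤ : Subgroup G)) w = cl w := by
    have : Subsingleton (G ⧸ (⊤ : Subgroup G)) := QuotientGroup.subsingleton_quotient_top
    let _ : Unique (G ⧸ (⊤ : Subgroup G)) :=
      ⟨⟨((1 : G) : G ⧸ (⊤ : Subgroup G))⟩, fun _ => Subsingleton.elim _ _⟩
    exact TK.ArtK.yy_point w
  have e1 : TK.ArtK.yy (XX B) w = ((List.ofFn B).map fun C => TK.ArtK.yy (G ⧸ C) w).sum := by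
    rw [TK.ArtK.yy_XX, List.map_ofFn, List.sum_ofFn]
    rfl
  rw [e1, hB, List.map_append, List.sum_append, List.map_replicate, List.sum_replicate, e2]

/-- Artin induction for `K₁(R[G])`, `R` any commutative ring -/
theorem s_C : Pool.Agent.L7h58.SK.S_C := by
  intro R _ G _ _ x
  obtain ⟨N, w, rfl⟩ := K1_exists x
  obtain ⟨n, m, B, B', s, hs, ⟨l₁, l₂, hl₁, hl₂, hB, hB'⟩, f1, d1, f2, d2, P, Q, δ, hδ, h1, h2, h3⟩ :=
    artin_matrix G
  have hrel := square_iso (R := R) (pm G (XX B)) (pm G (XX B')) P Q δ (by exact_mod_cast hδ.ne')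
    (by rw [h1, natCast_zsmul, nsmul_eq_mul, mul_one])
    (by rw [h2, natCast_zsmul, nsmul_eq_mul, mul_one]) (by
      intro g
      ext x y
      rw [Matrix.mul_apply, Matrix.mul_apply, Finset.sum_eq_single (g⁻¹ • x),
        Finset.sum_eq_single (g • y)]
      · show (if g • g⁻¹ • x = x then (1 : ℤ) else 0) * _ =
          _ * (if g • y = g • y then (1 : ℤ) else 0)
        rw [if_pos (smul_inv_smul g x), if_pos rfl, one_mul, mul_one, ← h3 g (g⁻¹ • x) y,
          smul_inv_smul]
      · intro z _ hz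
        show _ * (if g • y = z then (1 : ℤ) else 0) = 0
        rw [if_neg (Ne.symm hz), mul_zero]
      · intro h; exact absurd (Finset.mem_univ _) h
      · intro z _ hz
        show (if g • z = x then (1 : ℤ) else 0) * _ = 0
        rw [if_neg, zero_mul]
        intro h
        apply hz
        rw [← h, inv_smul_smul]
      · intro h; exact absurd (Finset.mem_univ _) h) w
  rw [zz_tn_pm, zz_tn_pm, zz_tn_pm, zz_tn_pm] at hrel
  have hY : ∀ {κ : Type} [Fintype κ] [DecidableEq κ] (w : (Matrix κ κ (MonoidAlgebra R G))ˣ),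
      TK.ArtK.yy (XX B') w ∈ TK.ArtK.cyc R G := by
    intro κ _ _ w
    obtain ⟨c, hc, h⟩ := yy_list B' w 0 l₂ hl₂ (by rw [hB']; rfl)
    rw [h, zero_smul, zero_add]
    exact hc
  obtain ⟨c1, hc1, e1⟩ := yy_list B (blow (TK.ArtK.th G (XX B)) w) s l₁ hl₁ hB
  obtain ⟨c2, hc2, e2⟩ := yy_list B w s l₁ hl₁ hB
  obtain ⟨c3, hc3, e3⟩ := yy_list B (blow (TK.ArtK.th G (XX B')) w) s l₁ hl₁ hB
  rw [← TK.ArtK.yy_eq, e2] at e1
  rw [← TK.ArtK.yy_eq] at e3
  rw [e1, e3] at hrel
  refine ⟨s * s, Nat.mul_pos hs hs, ?_⟩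
  have h4 : (s * s) • cl w = TK.ArtK.yy (XX B') (blow (TK.ArtK.th G (XX B)) w) +
      (s • TK.ArtK.yy (XX B') w + c3) - TK.ArtK.yy (XX B') (blow (TK.ArtK.th G (XX B')) w) -
      s • c2 - c1 := by
    rw [← hrel, mul_smul, smul_add]
    abel
  rw [h4]
  exact AddSubgroup.sub_mem _ (AddSubgroup.sub_mem _ (AddSubgroup.sub_mem _
    (AddSubgroup.add_mem _ (hY _) (AddSubgroup.add_mem _ (AddSubgroup.nsmul_mem _ (hY w) s) hc3))
    (hY _)) (AddSubgroup.nsmul_mem _ hc2 s)) hc1

end

end Pool.Agent.L7h60.SK
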